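import Pool.Agent.Lib_MP_22a066_ag.Assemble

set_option autoImplicit false

namespace Pool.Agent.Results.MP_22a066_ag.CharZero

universe u

/-- The Harbourne-Huneke containment over every field of characteristic zero: for `n ≥ 2`, every
nonempty finite family of points `p i` of projective `n`-space and all positive `t`, `m`, the
symbolic power `I^(t(m+n-1))` of the ideal `I` of the points lies in `𝔪^t (I^(m))^t`.  The ideal of
the point `p i` is generated by the forms `x_j p_l - x_l p_j`. -/
theorem result :
    ∀ (k : Type u) [Field k] [CharZero k] (n : ℕ), 2 ≤ n → ∀ (s : ℕ), 0 < s →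
      ∀ (p : Fin s → Fin (n + 1) → k), (∀ i, p i ≠ 0) →
        ∀ t m : ℕ, 0 < t → 0 < m →
          (⨅ i : Fin s,
              (Ideal.span (Set.range (fun jl : Fin (n + 1) × Fin (n + 1) =>
                (MvPolynomial.X jl.1 * MvPolynomial.C (p i jl.2)
                  - MvPolynomial.X jl.2 * MvPolynomial.C (p i jl.1) :
                  MvPolynomial (Fin (n + 1)) k)))) ^ (t * (m + n - 1)))
            ≤ (Ideal.span (Set.range (fun j : Fin (n + 1) =>
                  (MvPolynomial.X j : MvPolynomial (Fin (n + 1)) k)))) ^ t *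
              (⨅ i : Fin s,
                (Ideal.span (Set.range (fun jl : Fin (n + 1) × Fin (n + 1) =>
                  (MvPolynomial.X jl.1 * MvPolynomial.C (p i jl.2)
                    - MvPolynomial.X jl.2 * MvPolynomial.C (p i jl.1) :
                    MvPolynomial (Fin (n + 1)) k)))) ^ m) ^ t := by
  intro k _ _ n hn s hs p hp t m ht hm
  have hl : ∀ i, ∃ l, p i l ≠ 0 := fun i => Function.ne_iff.mp (hp i)
  choose l hl using hl
  have : Nonempty (Fin s) := ⟨⟨0, hs⟩⟩
  rw [Pool.Agent.Lib22a066.frozen_iInf_eq p l hl, Pool.Agent.Lib22a066.frozen_iInf_eq p l hl]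
  exact Pool.Agent.Lib22a066.contain_char0 k _ l n m t (by simp) hn hm ht

end Pool.Agent.Results.MP_22a066_ag.CharZero
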