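import Pool.Agent.HHC.Final

set_option autoImplicit false

namespace Pool.Agent.Results.MP_22a066_ag.EveryField

universe u

/-- Harbourne-Huneke containment over an arbitrary field.  For `n ≥ 2`, every nonempty finite
family of points `p i` of projective `n`-space over any field `k` and all positive `t`, `m`:
`I^(t(m+n-1)) ⊆ 𝔪^t (I^(m))^t` if `t ≤ n + 1`, and
`I^(t(m+n-1)) ⊆ 𝔪^(t - ⌊(t-2)/n⌋) (I^(m))^t` for every `t` (natural number subtraction).
The ideal of the point `p i` is generated by the forms `x_j p_l - x_l p_j`. -/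
theorem result :
    ∀ (k : Type u) [Field k] (n : ℕ), 2 ≤ n → ∀ (s : ℕ), 0 < s →
      ∀ (p : Fin s → Fin (n + 1) → k), (∀ i, p i ≠ 0) →
        ∀ t m : ℕ, 0 < t → 0 < m →
          (t ≤ n + 1 →
            (⨅ i : Fin s,
                (Ideal.span (Set.range (fun jl : Fin (n + 1) × Fin (n + 1) =>
                  (MvPolynomial.X jl.1 * MvPolynomial.C (p i jl.2)
                    - MvPolynomial.X jl.2 * MvPolynomial.C (p i jl.1) :
                    MvPolynomial (Fin (n + 1)) k)))) ^ (t * (m + n - 1)))
              ≤ (Ideal.span (Set.range (fun j : Fin (n + 1) =>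
                    (MvPolynomial.X j : MvPolynomial (Fin (n + 1)) k)))) ^ t *
                (⨅ i : Fin s,
                  (Ideal.span (Set.range (fun jl : Fin (n + 1) × Fin (n + 1) =>
                    (MvPolynomial.X jl.1 * MvPolynomial.C (p i jl.2)
                      - MvPolynomial.X jl.2 * MvPolynomial.C (p i jl.1) :
                      MvPolynomial (Fin (n + 1)) k)))) ^ m) ^ t) ∧
          (⨅ i : Fin s,
              (Ideal.span (Set.range (fun jl : Fin (n + 1) × Fin (n + 1) =>
                (MvPolynomial.X jl.1 * MvPolynomial.C (p i jl.2)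
                  - MvPolynomial.X jl.2 * MvPolynomial.C (p i jl.1) :
                  MvPolynomial (Fin (n + 1)) k)))) ^ (t * (m + n - 1)))
            ≤ (Ideal.span (Set.range (fun j : Fin (n + 1) =>
                  (MvPolynomial.X j : MvPolynomial (Fin (n + 1)) k)))) ^ (t - (t - 2) / n) *
              (⨅ i : Fin s,
                (Ideal.span (Set.range (fun jl : Fin (n + 1) × Fin (n + 1) =>
                  (MvPolynomial.X jl.1 * MvPolynomial.C (p i jl.2)
                    - MvPolynomial.X jl.2 * MvPolynomial.C (p i jl.1) :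
                    MvPolynomial (Fin (n + 1)) k)))) ^ m) ^ t := by
  intro k _ n hn s hs p hp t m ht hm
  have hl : ∀ i, ∃ l, p i l ≠ 0 := fun i => Function.ne_iff.mp (hp i)
  choose l hl using hl
  rw [Pool.Agent.Lib22a066.frozen_iInf_eq p l hl, Pool.Agent.Lib22a066.frozen_iInf_eq p l hl]
  have h := Pool.Agent.HHC.final k n hn s hs (fun i j => p i j / p i (l i)) l m t hm ht
  refine ⟨fun htn => ?_, h⟩
  have h0 : (t - 2) / n = 0 := Nat.div_eq_of_lt (by omega)
  rw [h0, Nat.sub_zero] at h
  exact h

end Pool.Agent.Results.MP_22a066_ag.EveryField
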